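import Mathlib

open CategoryTheory CategoryTheory.Limits Pretriangulated Triangulated

set_option linter.unusedSectionVars false
set_option linter.unusedVariables false

namespace Pool.Agent.Results.MP_f85f12_al.TorsionFreeSliceNotJordanHolder

universe u v w

section QuasiAbelian

variable {B : Type*} [Category B] [HasZeroMorphisms B]

/-- A strict short exact sequence `X → Y → Z` of a (quasi-abelian) category: `f` is a kernel of
`g` and `g` is a cokernel of `f`. -/
def StrictExact {X Y Z : B} (f : X ⟶ Y) (g : Y ⟶ Z) : Prop :=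
  ∃ w : f ≫ g = 0, Nonempty (IsLimit (KernelFork.ofι f w)) ∧
    Nonempty (IsColimit (CokernelCofork.ofπ g w))

/-- Simple objects: nonzero, and every strict subobject is zero or everything. -/
def IsSimpleObj (S : B) : Prop :=
  ¬ IsZero S ∧ ∀ (X Z : B) (f : X ⟶ S) (g : S ⟶ Z), StrictExact f g → IsZero X ∨ IsIso f

/-- `CompSeries c l`: the object `c` has a composition series (a finite chain of strict
subobjects with simple successive quotients) whose list of factors, from top to bottom,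
is `l`. -/
inductive CompSeries : B → List B → Prop
  | nil {X : B} : IsZero X → CompSeries X []
  | cons {X Y S : B} {l : List B} (f : X ⟶ Y) (g : Y ⟶ S) : StrictExact f g → IsSimpleObj S →
      CompSeries X l → CompSeries Y (S :: l)

variable (B) in
/-- The Jordan-Hölder property: any two composition series of the same object have the same
factors up to permutation and isomorphism. -/
def JordanHolder : Prop :=
  ∀ (c : B) (l l' : List B), CompSeries c l → CompSeries c l' →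
    ∃ l'' : List B, l.Perm l'' ∧ List.Forall₂ (fun a b => Nonempty (a ≅ b)) l'' l'

end QuasiAbelian

section Lax

variable (C : Type u) [Category.{v} C] [Preadditive C] [HasZeroObject C] [HasShift C ℤ]
  [∀ n : ℤ, (shiftFunctor C n).Additive] [Pretriangulated C]

variable {C} in
/-- `HN P E l`: the object `E` has a Harder-Narasimhan filtration
`0 = E₀ → E₁ → ... → Eₙ = E` with factors in `P φ₁, ..., P φₙ`, `φ₁ > ... > φₙ`, where
`l = [φₙ, ..., φ₁]`. -/
inductive HN (P : ℝ → ObjectProperty C) : C → List ℝ → Prop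
  | zero {E : C} : IsZero E → HN P E []
  | step {E' E A : C} {φ : ℝ} {l : List ℝ} (f : E' ⟶ E) (g : E ⟶ A) (h : A ⟶ E'⟦(1 : ℤ)⟧) :
      Triangle.mk f g h ∈ distTriang C → P φ A → ¬ IsZero A → (∀ ψ ∈ l, φ < ψ) →
      HN P E' l → HN P E (φ :: l)

/-- A slicing in the sense of Bridgeland. -/
structure Slicing where
  /-- the full subcategories `P φ` -/
  P : ℝ → ObjectProperty C
  zero : ∀ (φ : ℝ) (X : C), IsZero X → P φ X
  iso : ∀ (φ : ℝ) {X Y : C}, (X ≅ Y) → P φ X → P φ Y
  sum : ∀ (φ : ℝ) {X Y Z : C} (i₁ : X ⟶ Z) (i₂ : Y ⟶ Z) (p₁ : Z ⟶ X) (p₂ : Z ⟶ Y),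
    i₁ ≫ p₁ = 𝟙 X → i₂ ≫ p₂ = 𝟙 Y → i₁ ≫ p₂ = 0 → i₂ ≫ p₁ = 0 →
    p₁ ≫ i₁ + p₂ ≫ i₂ = 𝟙 Z → P φ X → P φ Y → P φ Z
  shift : ∀ (φ : ℝ) (X : C), P φ X ↔ P (φ + 1) (X⟦(1 : ℤ)⟧)
  hom_eq_zero : ∀ {φ ψ : ℝ} {X Y : C}, ψ < φ → P φ X → P ψ Y → ∀ f : X ⟶ Y, f = 0
  hn : ∀ X : C, ∃ l : List ℝ, HN P X l

/-- A norm on the real vector space `ℝ ⊗ Λ`. -/
structure IsNorm {Λ : Type*} [AddCommGroup Λ] (N : TensorProduct ℤ ℝ Λ → ℝ) : Prop where
  nonneg : ∀ x, 0 ≤ N x
  eq_zero : ∀ x, N x = 0 → x = 0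
  smul : ∀ (r : ℝ) (x), N (r • x) = |r| * N x
  add : ∀ x y, N (x + y) ≤ N x + N y

variable {C} in
/-- A homomorphism `K(C) → Λ`, given as an additive function on objects. -/
def IsAdditiveOnTriangles {Λ : Type*} [AddCommGroup Λ] (v : C → Λ) : Prop :=
  ∀ T : Triangle C, T ∈ distTriang C → v T.obj₂ = v T.obj₁ + v T.obj₃

/-- A lax stability condition on `C`, for a free abelian group `Λ` of finite rank with a norm
`N` on `ℝ ⊗ Λ` and a homomorphism `v : K(C) → Λ`. The mass of an object `X` of `P φ` is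
`‖Z (v X)‖`. -/
structure LaxStabilityCondition (Λ : Type*) [AddCommGroup Λ] (N : TensorProduct ℤ ℝ Λ → ℝ)
    (v : C → Λ) extends Slicing C where
  /-- the central charge -/
  Z : Λ →+ ℂ
  compat : ∀ (φ : ℝ) (X : C), P φ X →
    ∃ m : ℝ, 0 ≤ m ∧ Z (v X) = m * Complex.exp (Real.pi * φ * Complex.I)
  support : ∃ K : ℝ, 0 < K ∧ ∀ (φ : ℝ) (s : (P φ).FullSubcategory), IsSimpleObj s →
    Z (v s.obj) ≠ 0 → N (1 ⊗ₜ[ℤ] v s.obj) / K ≤ ‖Z (v s.obj)‖

end Lax

section

variable {A : Type u} [Category.{v} A] [Abelian A] [HasDerivedCategory.{w} A]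

/-- cohomology functors on the bounded derived category -/
noncomputable def H (A : Type u) [Category.{v} A] [Abelian A] [HasDerivedCategory.{w} A] (i : ℤ) :
    DerivedCategory.Bounded A ⥤ A :=
  DerivedCategory.Bounded.ι ⋙ DerivedCategory.homologyFunctor A i

instance (i : ℤ) : (H A i).Additive := by unfold H; infer_instance

noncomputable def shiftIsoH (i j : ℤ) (h : 1 + i = j) (X : DerivedCategory.Bounded A) :
    (H A i).obj (X⟦(1 : ℤ)⟧) ≅ (H A j).obj X :=
  (DerivedCategory.homologyFunctor A i).mapIso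
      ((DerivedCategory.Bounded.ι.commShiftIso (1 : ℤ)).app X) ≪≫
    ((DerivedCategory.homologyFunctor A 0).shiftIso 1 i j h).app (DerivedCategory.Bounded.ι.obj X)

/-- stalk complexes -/
noncomputable def St (n : ℤ) : A ⥤ DerivedCategory.Bounded A :=
  ObjectProperty.lift _ (DerivedCategory.singleFunctor A n)
    (fun _ => ⟨⟨n, inferInstance⟩, ⟨n, inferInstance⟩⟩)

instance (n : ℤ) : (St (A := A) n).Full where
  map_surjective {M N} f :=
    ⟨(DerivedCategory.singleFunctor A n).preimage f.hom,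
      ObjectProperty.hom_ext _ ((DerivedCategory.singleFunctor A n).map_preimage f.hom)⟩

instance (n : ℤ) : (St (A := A) n).Faithful where
  map_injective {M N} f g h :=
    (DerivedCategory.singleFunctor A n).map_injective (congrArg (fun t => t.hom) h)

noncomputable def HSt (n : ℤ) (M : A) : (H A n).obj ((St n).obj M) ≅ M :=
  (DerivedCategory.singleFunctorCompHomologyFunctorIso A n).app M

theorem HSt_zero {n i : ℤ} (h : i ≠ n) (M : A) : IsZero ((H A i).obj ((St n).obj M)) := by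
  rcases lt_or_gt_of_ne h with h' | h'
  · exact DerivedCategory.isZero_of_isGE ((DerivedCategory.singleFunctor A n).obj M) n i h'
  · exact DerivedCategory.isZero_of_isLE ((DerivedCategory.singleFunctor A n).obj M) n i h'

theorem exists_iso_St (X : DerivedCategory.Bounded A) (n : ℤ)
    (h : ∀ i, i ≠ n → IsZero ((H A i).obj X)) : ∃ M : A, Nonempty (X ≅ (St n).obj M) := by
  have h1 : X.obj.IsLE n := by
    rw [DerivedCategory.isLE_iff]
    intro i hi
    exact h i (ne_of_gt hi)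
  have h2 : X.obj.IsGE n := by
    rw [DerivedCategory.isGE_iff]
    intro i hi
    exact h i (ne_of_lt hi)
  obtain ⟨M, ⟨e⟩⟩ := DerivedCategory.exists_iso_singleFunctor_obj_of_isGE_of_isLE X.obj n
  exact ⟨M, ⟨ObjectProperty.isoMk _ e⟩⟩

theorem isZero_iff (X : DerivedCategory.Bounded A) :
    IsZero X ↔ ∀ i, IsZero ((H A i).obj X) := by
  constructor
  · intro h i
    exact (H A i).map_isZero h
  · intro h
    obtain ⟨M, ⟨e⟩⟩ := exists_iso_St X 0 (fun i _ => h i)
    have h1 : IsZero M := (h 0).of_iso ((HSt 0 M).symm ≪≫ (H A 0).mapIso e.symm)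
    exact ((St 0).map_isZero h1).of_iso e

end

/-- torsion pairs -/
structure TorsionPair (A : Type u) [Category.{v} A] [Abelian A] where
  T : ObjectProperty A
  F : ObjectProperty A
  T_zero : ∀ X : A, IsZero X → T X
  F_zero : ∀ X : A, IsZero X → F X
  T_iso : ∀ {X Y : A}, (X ≅ Y) → T X → T Y
  F_iso : ∀ {X Y : A}, (X ≅ Y) → F X → F Y
  T_sum : ∀ {X Y Z : A} (i₁ : X ⟶ Z) (i₂ : Y ⟶ Z) (p₁ : Z ⟶ X) (p₂ : Z ⟶ Y),
    p₁ ≫ i₁ + p₂ ≫ i₂ = 𝟙 Z → T X → T Y → T Z
  F_sum : ∀ {X Y Z : A} (i₁ : X ⟶ Z) (i₂ : Y ⟶ Z) (p₁ : Z ⟶ X) (p₂ : Z ⟶ Y),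
    p₁ ≫ i₁ + p₂ ≫ i₂ = 𝟙 Z → F X → F Y → F Z
  hom : ∀ {X Y : A} (f : X ⟶ Y), T X → F Y → f = 0
  seq : ∀ M : A, ∃ S : ShortComplex A, S.ShortExact ∧ T S.X₁ ∧ F S.X₃ ∧ Nonempty (S.X₂ ≅ M)

section

variable {A : Type u} [Category.{v} A] [Abelian A] [HasDerivedCategory.{w} A]
  (τ : TorsionPair A)

/-- condition on the i-th cohomology -/
def Qp (φ : ℝ) (i : ℤ) (M : A) : Prop :=
  (φ = 1 - i → τ.T M) ∧ (φ = 1 / 2 - i → τ.F M) ∧ (φ ≠ 1 - i → φ ≠ 1 / 2 - i → IsZero M)

/-- the slices -/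
def PP (φ : ℝ) : ObjectProperty (DerivedCategory.Bounded A) :=
  fun X => ∀ i, Qp τ φ i ((H A i).obj X)

variable {τ}

omit [HasDerivedCategory A] in
theorem Qp_zero (φ : ℝ) (i : ℤ) (M : A) (h : IsZero M) : Qp τ φ i M :=
  ⟨fun _ => τ.T_zero M h, fun _ => τ.F_zero M h, fun _ _ => h⟩

omit [HasDerivedCategory A] in
theorem Qp_iso (φ : ℝ) (i : ℤ) {M N : A} (e : M ≅ N) (h : Qp τ φ i M) : Qp τ φ i N :=
  ⟨fun h' => τ.T_iso e (h.1 h'), fun h' => τ.F_iso e (h.2.1 h'),
    fun h' h'' => (h.2.2 h' h'').of_iso e.symm⟩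

omit [HasDerivedCategory A] in
theorem Qp_sum (φ : ℝ) (i : ℤ) {X Y Z : A} (i₁ : X ⟶ Z) (i₂ : Y ⟶ Z) (p₁ : Z ⟶ X) (p₂ : Z ⟶ Y)
    (h : p₁ ≫ i₁ + p₂ ≫ i₂ = 𝟙 Z) (hX : Qp τ φ i X) (hY : Qp τ φ i Y) : Qp τ φ i Z := by
  refine ⟨fun h' => τ.T_sum i₁ i₂ p₁ p₂ h (hX.1 h') (hY.1 h'),
    fun h' => τ.F_sum i₁ i₂ p₁ p₂ h (hX.2.1 h') (hY.2.1 h'), fun h' h'' => ?_⟩
  rw [IsZero.iff_id_eq_zero, ← h, (hX.2.2 h' h'').eq_of_tgt p₁ 0, (hY.2.2 h' h'').eq_of_tgt p₂ 0]
  simp

theorem half_ne (n i : ℤ) : (1 : ℝ) - n ≠ 1 / 2 - i := by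
  intro h
  have h1 : ((2 * (i - n) : ℤ) : ℝ) = ((-1 : ℤ) : ℝ) := by push_cast; linarith
  have h2 := Int.cast_injective h1
  omega

theorem PP_pure {φ : ℝ} {n : ℤ} (hφ : φ = 1 - n ∨ φ = 1 / 2 - n)
    {X : DerivedCategory.Bounded A} (hX : PP τ φ X) (i : ℤ) (hi : i ≠ n) :
    IsZero ((H A i).obj X) := by
  apply (hX i).2.2
  · rcases hφ with h | h
    · rw [h]; intro h'
      apply hi
      have : (i : ℝ) = n := by linarith
      exact_mod_cast this
    · rw [h]; exact (half_ne i n).symm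
  · rcases hφ with h | h
    · rw [h]; exact half_ne n i
    · rw [h]; intro h'
      apply hi
      have : (i : ℝ) = n := by linarith
      exact_mod_cast this

theorem PP_other {φ : ℝ} (hφ : ∀ n : ℤ, ¬ (φ = 1 - n ∨ φ = 1 / 2 - n))
    {X : DerivedCategory.Bounded A} (hX : PP τ φ X) : IsZero X := by
  rw [isZero_iff]
  intro i
  have := hφ i
  push Not at this
  exact (hX i).2.2 this.1 this.2

theorem PP_zero (φ : ℝ) (X : DerivedCategory.Bounded A) (h : IsZero X) : PP τ φ X :=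
  fun i => Qp_zero φ i _ ((isZero_iff X).1 h i)

theorem PP_iso (φ : ℝ) {X Y : DerivedCategory.Bounded A} (e : X ≅ Y) (h : PP τ φ X) :
    PP τ φ Y :=
  fun i => Qp_iso φ i ((H A i).mapIso e) (h i)

theorem PP_sum (φ : ℝ) {X Y Z : DerivedCategory.Bounded A} (i₁ : X ⟶ Z) (i₂ : Y ⟶ Z)
    (p₁ : Z ⟶ X) (p₂ : Z ⟶ Y) (h : p₁ ≫ i₁ + p₂ ≫ i₂ = 𝟙 Z) (hX : PP τ φ X) (hY : PP τ φ Y) :
    PP τ φ Z := by
  intro i
  refine Qp_sum φ i ((H A i).map i₁) ((H A i).map i₂) ((H A i).map p₁) ((H A i).map p₂) ?_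
    (hX i) (hY i)
  rw [← Functor.map_comp, ← Functor.map_comp, ← Functor.map_add, h, CategoryTheory.Functor.map_id]

theorem PP_shift (φ : ℝ) (X : DerivedCategory.Bounded A) :
    PP τ φ X ↔ PP τ (φ + 1) (X⟦(1 : ℤ)⟧) := by
  have key : ∀ (i : ℤ) (M : A), Qp τ (φ + 1) i M ↔ Qp τ φ (1 + i) M := by
    intro i M
    have h1 : (φ + 1 = 1 - i) ↔ (φ = 1 - ((1 + i : ℤ) : ℝ)) := by
      push_cast; constructor <;> intro h <;> linarith
    have h2 : (φ + 1 = 1 / 2 - i) ↔ (φ = 1 / 2 - ((1 + i : ℤ) : ℝ)) := by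
      push_cast; constructor <;> intro h <;> linarith
    unfold Qp
    rw [Ne, Ne, h1, h2]
  constructor
  · intro h i
    rw [key]
    exact Qp_iso φ _ (shiftIsoH i (1 + i) rfl X).symm (h (1 + i))
  · intro h i
    have h1 := h (i - 1)
    rw [key] at h1
    have h2 : 1 + (i - 1) = i := by ring
    have h3 := Qp_iso φ _ (shiftIsoH (i - 1) i h2 X) h1
    rwa [h2] at h3

theorem St_PP_T (n : ℤ) (M : A) (h : τ.T M) : PP τ (1 - n) ((St n).obj M) := by
  intro i
  by_cases hi : i = n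
  · subst hi
    refine Qp_iso _ _ (HSt i M).symm ⟨fun _ => h, fun h' => absurd h' (half_ne _ _),
      fun h' => absurd rfl h'⟩
  · exact Qp_zero _ _ _ (HSt_zero hi M)

theorem St_PP_F (n : ℤ) (M : A) (h : τ.F M) : PP τ (1 / 2 - n) ((St n).obj M) := by
  intro i
  by_cases hi : i = n
  · subst hi
    refine Qp_iso _ _ (HSt i M).symm ⟨fun h' => absurd h'.symm (half_ne _ _), fun _ => h,
      fun _ h' => absurd rfl h'⟩
  · exact Qp_zero _ _ _ (HSt_zero hi M)

theorem PP_hom {φ ψ : ℝ} {X Y : DerivedCategory.Bounded A} (hψφ : ψ < φ) (hX : PP τ φ X)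
    (hY : PP τ ψ Y) (f : X ⟶ Y) : f = 0 := by
  by_cases h1 : ∃ n : ℤ, (φ = 1 - n ∨ φ = 1 / 2 - n)
  swap
  · push Not at h1
    exact (PP_other (fun n => by push Not; exact h1 n) hX).eq_of_src _ _
  by_cases h2 : ∃ n : ℤ, (ψ = 1 - n ∨ ψ = 1 / 2 - n)
  swap
  · push Not at h2
    exact (PP_other (fun n => by push Not; exact h2 n) hY).eq_of_tgt _ _
  obtain ⟨n, hn⟩ := h1
  obtain ⟨m, hm⟩ := h2
  obtain ⟨M, ⟨e⟩⟩ := exists_iso_St X n (PP_pure hn hX)
  obtain ⟨N, ⟨e'⟩⟩ := exists_iso_St Y m (PP_pure hm hY)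
  have hnm : n ≤ m := by
    by_contra hlt
    push Not at hlt
    have h3 : (m : ℝ) + 1 ≤ n := by exact_mod_cast hlt
    rcases hn with rfl | rfl <;> rcases hm with rfl | rfl <;> linarith
  suffices h : e.inv ≫ f ≫ e'.hom = 0 by
    have h4 : f = e.hom ≫ (e.inv ≫ f ≫ e'.hom) ≫ e'.inv := by simp
    rw [h4, h]
    simp
  rcases lt_or_eq_of_le hnm with hlt | rfl
  · apply (DerivedCategory.Bounded.ι (C := A)).map_injective
    rw [Functor.map_zero]
    exact DerivedCategory.TStructure.t.zero_of_isLE_of_isGE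
      (X := (DerivedCategory.singleFunctor A n).obj M)
      (Y := (DerivedCategory.singleFunctor A m).obj N) _ n m hlt inferInstance inferInstance
  · obtain ⟨g, hg⟩ := (St n).map_surjective (e.inv ≫ f ≫ e'.hom)
    rw [← hg]
    have hT : φ = 1 - n ∧ ψ = 1 / 2 - n := by
      rcases hn with rfl | rfl <;> rcases hm with rfl | rfl
      · exact absurd hψφ (lt_irrefl _)
      · exact ⟨rfl, rfl⟩
      · linarith
      · exact absurd hψφ (lt_irrefl _)
    have hTM : τ.T M := τ.T_iso ((H A n).mapIso e ≪≫ HSt n M) ((hX n).1 hT.1)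
    have hFN : τ.F N := τ.F_iso ((H A n).mapIso e' ≪≫ HSt n N) ((hY n).2.1 hT.2)
    rw [τ.hom g hTM hFN, Functor.map_zero]

theorem HN_iso {P : ℝ → ObjectProperty (DerivedCategory.Bounded A)}
    {E E' : DerivedCategory.Bounded A} {l : List ℝ} (h : HN P E l) (e : E ≅ E') : HN P E' l := by
  cases h with
  | zero h => exact HN.zero (h.of_iso e.symm)
  | step f g k hT hP hA hl h =>
    refine HN.step (f ≫ e.hom) (e.inv ≫ g) k ?_ hP hA hl h
    refine isomorphic_distinguished _ hT _ (Triangle.isoMk _ _ (Iso.refl _) e.symm (Iso.refl _)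
      ?_ ?_ ?_)
    · change (f ≫ e.hom) ≫ e.inv = 𝟙 _ ≫ f
      rw [Category.assoc, e.hom_inv_id, Category.comp_id, Category.id_comp]
    · change (e.inv ≫ g) ≫ 𝟙 _ = e.inv ≫ g
      rw [Category.comp_id]
    · change k ≫ (𝟙 _)⟦(1 : ℤ)⟧' = 𝟙 _ ≫ k
      rw [CategoryTheory.Functor.map_id, Category.comp_id, Category.id_comp]

variable (τ) in
/-- objects with an HN filtration with all phases `> c` -/
def QQ (c : ℝ) : ObjectProperty (DerivedCategory.Bounded A) :=
  fun E => ∃ l, HN (PP τ) E l ∧ ∀ ψ ∈ l, c < ψ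

theorem QQ_step {c c' φ : ℝ} (h1 : φ ≤ c) (h2 : c' < φ) :
    ObjectProperty.extensionProduct (QQ τ c) (PP τ φ) ≤ QQ τ c' := by
  rintro E ⟨Y, Z, f, g, k, hT, ⟨l, hl, hl'⟩, hZ⟩
  by_cases hz : IsZero Z
  · have : IsIso f := (Triangle.isZero₃_iff_isIso₁ _ hT).1 hz
    exact ⟨l, HN_iso hl (asIso f), fun ψ hψ => lt_of_lt_of_le h2 (h1.trans (hl' ψ hψ).le)⟩
  · refine ⟨φ :: l, HN.step f g k hT hZ hz (fun ψ hψ => lt_of_le_of_lt h1 (hl' ψ hψ)) hl, ?_⟩
    intro ψ hψ
    rcases List.mem_cons.1 hψ with rfl | hψ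
    · exact h2
    · exact lt_of_lt_of_le h2 (h1.trans (hl' ψ hψ).le)

theorem QQ_zero (c : ℝ) {E : DerivedCategory.Bounded A} (h : IsZero E) : QQ τ c E :=
  ⟨[], HN.zero h, fun _ h => absurd h List.not_mem_nil⟩

/-- lift of distinguished triangles to the bounded derived category -/
theorem lift_triangle {X Y Z : DerivedCategory.Bounded A} (f : X ⟶ Y) (g : Y ⟶ Z)
    (h : Z.obj ⟶ X.obj⟦(1 : ℤ)⟧) (hT : Triangle.mk f.hom g.hom h ∈ distTriang (DerivedCategory A)) :
    ∃ h' : Z ⟶ X⟦(1 : ℤ)⟧, Triangle.mk f g h' ∈ distTriang (DerivedCategory.Bounded A) := by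
  refine ⟨(DerivedCategory.Bounded.ι (C := A)).preimage
    (h ≫ (DerivedCategory.Bounded.ι.commShiftIso (1 : ℤ)).inv.app X), ?_⟩
  rw [← (DerivedCategory.Bounded.ι (C := A)).map_distinguished_iff]
  refine isomorphic_distinguished _ hT _ (Triangle.isoMk _ _ (Iso.refl _) (Iso.refl _)
    (Iso.refl _) ?_ ?_ ?_)
  · change f.hom ≫ 𝟙 _ = 𝟙 _ ≫ f.hom
    rw [Category.comp_id, Category.id_comp]
  · change g.hom ≫ 𝟙 _ = 𝟙 _ ≫ g.hom
    rw [Category.comp_id, Category.id_comp]
  · change ((DerivedCategory.Bounded.ι (C := A)).map ((DerivedCategory.Bounded.ι (C := A)).preimage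
      (h ≫ (DerivedCategory.Bounded.ι.commShiftIso (1 : ℤ)).inv.app X)) ≫
      (DerivedCategory.Bounded.ι.commShiftIso (1 : ℤ)).hom.app X) ≫ (𝟙 _)⟦(1 : ℤ)⟧' = 𝟙 _ ≫ h
    have e1 : (h ≫ (DerivedCategory.Bounded.ι.commShiftIso (1 : ℤ)).inv.app X) ≫
        (DerivedCategory.Bounded.ι.commShiftIso (1 : ℤ)).hom.app X = h := by
      rw [Category.assoc, Iso.inv_hom_id_app]
      exact Category.comp_id _
    rw [Functor.map_preimage, CategoryTheory.Functor.map_id, e1]
    exact (Category.comp_id _).trans (Category.id_comp _).symm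

theorem St_triangle (n : ℤ) {S : ShortComplex A} (hS : S.ShortExact) :
    ∃ h' : (St n).obj S.X₃ ⟶ ((St n).obj S.X₁)⟦(1 : ℤ)⟧,
      Triangle.mk ((St n).map S.f) ((St n).map S.g) h' ∈
        distTriang (DerivedCategory.Bounded A) := by
  have hS' : (S.map (HomologicalComplex.single A (ComplexShape.up ℤ) n)).ShortExact :=
    hS.map_of_exact _
  exact lift_triangle ((St n).map S.f) ((St n).map S.g)
    (DerivedCategory.triangleOfSESδ hS') (DerivedCategory.triangleOfSES_distinguished hS')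

theorem St_ext (n : ℤ) (M : A) :
    ObjectProperty.extensionProduct (PP τ (1 - n)) (PP τ (1 / 2 - n)) ((St n).obj M) := by
  obtain ⟨S, hS, hT, hF, ⟨e⟩⟩ := τ.seq M
  obtain ⟨h', hh⟩ := St_triangle n hS
  have h1 : ObjectProperty.extensionProduct (PP τ (1 - n)) (PP τ (1 / 2 - n))
      ((St n).obj S.X₂) := ⟨_, _, _, _, _, hh, St_PP_T n _ hT, St_PP_F n _ hF⟩
  exact ObjectProperty.prop_of_iso _ ((St n).mapIso e) h1

theorem QQ_all (m : ℕ) : ∀ (b : ℤ) (E : DerivedCategory.Bounded A),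
    (DerivedCategory.TStructure.t.onBounded (C := DerivedCategory A)).IsLE E b →
    (DerivedCategory.TStructure.t.onBounded (C := DerivedCategory A)).IsGE E (b - m + 1) →
    ∀ c : ℝ, c < 1 / 2 - b → QQ τ c E := by
  set t := (DerivedCategory.TStructure.t.onBounded (C := DerivedCategory A)) with ht
  induction m with
  | zero =>
    intro b E h1 h2 c _
    have := h1
    have := h2
    exact QQ_zero c (t.isZero E b (b - (0 : ℕ) + 1) (by simp))
  | succ m ih =>
    intro b E h1 h2 c hc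
    have := h1
    have := h2
    have hT := t.triangleLEGE_distinguished (b - 1) b (by ring) E
    have hX1 : t.IsLE ((t.truncLE (b - 1)).obj E) (b - 1) := inferInstance
    have hX2 : t.IsGE ((t.truncLE (b - 1)).obj E) (b - ((m + 1 : ℕ) : ℤ) + 1) := inferInstance
    have hY1 : t.IsGE ((t.truncGE b).obj E) b := inferInstance
    have hY2 : t.IsLE ((t.truncGE b).obj E) b := inferInstance
    have hX : QQ τ (1 - b) ((t.truncLE (b - 1)).obj E) := by
      apply ih (b - 1) _ hX1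
      · have : b - 1 - (m : ℤ) + 1 = b - ((m + 1 : ℕ) : ℤ) + 1 := by push_cast; ring
        rw [this]
        exact hX2
      · push_cast; linarith
    have hYpure : ∀ i, i ≠ b → IsZero ((H A i).obj ((t.truncGE b).obj E)) := by
      intro i hi
      have hY1' : ((t.truncGE b).obj E).obj.IsGE b :=
        (ObjectProperty.tStructure_isGE_iff _ _ _ _).1 hY1
      have hY2' : ((t.truncGE b).obj E).obj.IsLE b :=
        (ObjectProperty.tStructure_isLE_iff _ _ _ _).1 hY2
      rcases lt_or_gt_of_ne hi with h' | h'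
      · exact DerivedCategory.isZero_of_isGE ((t.truncGE b).obj E).obj b i h'
      · exact DerivedCategory.isZero_of_isLE ((t.truncGE b).obj E).obj b i h'
    obtain ⟨M, ⟨e⟩⟩ := exists_iso_St _ b hYpure
    have hY : ObjectProperty.extensionProduct (PP τ (1 - b)) (PP τ (1 / 2 - b))
        ((t.truncGE b).obj E) := ObjectProperty.prop_of_iso _ e.symm (St_ext b M)
    have h3 : ObjectProperty.extensionProduct (QQ τ (1 - b))
        (ObjectProperty.extensionProduct (PP τ (1 - b)) (PP τ (1 / 2 - b))) E :=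
      ⟨_, _, _, _, _, hT, hX, hY⟩
    rw [← ObjectProperty.extensionProduct_assoc] at h3
    have h4 : ObjectProperty.extensionProduct (QQ τ (1 - b)) (PP τ (1 - b)) ≤
        QQ τ (1 / 2 - b) := QQ_step le_rfl (by linarith)
    have h5 := ObjectProperty.monotone_extensionProduct_left (PP τ (1 / 2 - b)) h4 _ h3
    exact QQ_step le_rfl hc _ h5

theorem hn_exists (E : DerivedCategory.Bounded A) : ∃ l, HN (PP τ) E l := by
  obtain ⟨⟨a, ha⟩, ⟨b, hb⟩⟩ := E.property
  have h1 : (DerivedCategory.TStructure.t.onBounded (C := DerivedCategory A)).IsLE E b :=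
    (ObjectProperty.tStructure_isLE_iff _ _ _ _).2 hb
  have h2 : (DerivedCategory.TStructure.t.onBounded (C := DerivedCategory A)).IsGE E a :=
    (ObjectProperty.tStructure_isGE_iff _ _ _ _).2 ha
  obtain ⟨l, hl, -⟩ := QQ_all (τ := τ) (b - a + 1).toNat b E h1
    ((DerivedCategory.TStructure.t.onBounded (C := DerivedCategory A)).isGE_of_ge E _ a (by omega))
    (1 / 2 - b - 1) (by linarith)
  exact ⟨l, hl⟩

variable (τ) in
/-- The slicing of the bounded derived category defined by a torsion pair. -/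
def slicing : Slicing (DerivedCategory.Bounded A) where
  P := PP τ
  zero := PP_zero
  iso φ _ _ e h := PP_iso φ e h
  sum φ _ _ _ i₁ i₂ p₁ p₂ _ _ _ _ h hX hY := PP_sum φ i₁ i₂ p₁ p₂ h hX hY
  shift := PP_shift
  hom_eq_zero h hX hY f := PP_hom h hX hY f
  hn := hn_exists

end

/-- an additive rank function vanishing on the torsion class -/
structure RankFn {A : Type u} [Category.{v} A] [Abelian A] (τ : TorsionPair A) where
  rk : A → ℤ
  nonneg : ∀ M, 0 ≤ rk M
  zero : ∀ M, IsZero M → rk M = 0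
  iso : ∀ {M N : A}, (M ≅ N) → rk M = rk N
  exact : ∀ S : ShortComplex A, S.ShortExact → rk S.X₂ = rk S.X₁ + rk S.X₃
  torsion : ∀ M, τ.T M → rk M = 0

section

variable {A : Type u} [Category.{v} A] [Abelian A] [HasDerivedCategory.{w} A]
  {τ : TorsionPair A} (ρ : RankFn τ)

omit [HasDerivedCategory A] in
theorem rk_exact (S : ShortComplex A) (hS : S.Exact) :
    ρ.rk S.X₂ = ρ.rk (image S.f) + ρ.rk (image S.g) := by
  have w1 : image.ι S.f ≫ S.g = 0 := by
    rw [← cancel_epi (factorThruImage S.f), ← Category.assoc, image.fac, S.zero, comp_zero]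
  have w2 : S.f ≫ factorThruImage S.g = 0 := by
    rw [← cancel_mono (image.ι S.g), Category.assoc, image.fac, S.zero, zero_comp]
  have w3 : image.ι S.f ≫ factorThruImage S.g = 0 := by
    rw [← cancel_mono (image.ι S.g), Category.assoc, image.fac, w1, zero_comp]
  let S₁ : ShortComplex A := ShortComplex.mk S.f (factorThruImage S.g) w2
  let S₂ : ShortComplex A := ShortComplex.mk (image.ι S.f) (factorThruImage S.g) w3
  let φ : S₁ ⟶ S := { τ₁ := 𝟙 _, τ₂ := 𝟙 _, τ₃ := image.ι S.g }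
  let ψ : S₁ ⟶ S₂ := { τ₁ := factorThruImage S.f, τ₂ := 𝟙 _, τ₃ := 𝟙 _ }
  have h1 : Epi φ.τ₁ := by show Epi (𝟙 _); infer_instance
  have h2 : IsIso φ.τ₂ := by show IsIso (𝟙 _); infer_instance
  have h3 : Mono φ.τ₃ := by show Mono (image.ι S.g); infer_instance
  have h4 : Epi ψ.τ₁ := by show Epi (factorThruImage S.f); infer_instance
  have h5 : IsIso ψ.τ₂ := by show IsIso (𝟙 _); infer_instance
  have h6 : Mono ψ.τ₃ := by show Mono (𝟙 _); infer_instance
  have e1 : S₁.Exact := (ShortComplex.exact_iff_of_epi_of_isIso_of_mono φ).2 hS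
  have e2 : S₂.Exact := (ShortComplex.exact_iff_of_epi_of_isIso_of_mono ψ).1 e1
  have e3 : S₂.ShortExact :=
    { exact := e2
      mono_f := by show Mono (image.ι S.f); infer_instance
      epi_g := by show Epi (factorThruImage S.g); infer_instance }
  exact ρ.exact S₂ e3

/-- the rank of an object of the bounded derived category -/
noncomputable def vv (X : DerivedCategory.Bounded A) : ℤ :=
  ∑ᶠ i : ℤ, (i.negOnePow : ℤ) * ρ.rk ((H A i).obj X)

theorem rk_support (X : DerivedCategory.Bounded A) :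
    (Function.support (fun i : ℤ => ρ.rk ((H A i).obj X))).Finite := by
  obtain ⟨⟨a, ha⟩, ⟨b, hb⟩⟩ := X.property
  apply (Set.finite_Icc a b).subset
  intro i hi
  rw [Function.mem_support] at hi
  by_contra h
  apply hi
  rw [Set.mem_Icc, not_and_or, not_le, not_le] at h
  apply ρ.zero
  have ha' : X.obj.IsGE a := ha
  have hb' : X.obj.IsLE b := hb
  rcases h with h | h
  · exact DerivedCategory.isZero_of_isGE X.obj a i h
  · exact DerivedCategory.isZero_of_isLE X.obj b i h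

theorem sum_aux (x y z a b c : ℤ → ℤ)
    (hy : (Function.support y).Finite) (hz : (Function.support z).Finite)
    (ha : ∀ i, 0 ≤ a i) (hb : ∀ i, 0 ≤ b i) (hc : ∀ i, 0 ≤ c i)
    (h1 : ∀ i, y i = a i + b i) (h2 : ∀ i, z i = b i + c i) (h3 : ∀ i, x (i + 1) = c i + a (i + 1)) :
    ∑ᶠ i : ℤ, (i.negOnePow : ℤ) * y i =
      ∑ᶠ i : ℤ, (i.negOnePow : ℤ) * x i + ∑ᶠ i : ℤ, (i.negOnePow : ℤ) * z i := by
  have hfa : (Function.support a).Finite := hy.subset (by
    intro i hi
    rw [Function.mem_support] at hi ⊢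
    have := h1 i; have := ha i; have := hb i
    omega)
  have hfb : (Function.support b).Finite := hy.subset (by
    intro i hi
    rw [Function.mem_support] at hi ⊢
    have := h1 i; have := ha i; have := hb i
    omega)
  have hfc : (Function.support c).Finite := hz.subset (by
    intro i hi
    rw [Function.mem_support] at hi ⊢
    have := h2 i; have := hc i; have := hb i
    omega)
  have hmul : ∀ f : ℤ → ℤ, (Function.support f).Finite →
      (Function.support (fun i : ℤ => (i.negOnePow : ℤ) * f i)).Finite := fun f hf =>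
    hf.subset (by
      intro i hi
      rw [Function.mem_support] at hi ⊢
      exact fun h => hi (by rw [h, mul_zero]))
  have hc' : (Function.support (fun i : ℤ => c (i - 1))).Finite := by
    have : (fun i : ℤ => c (i - 1)) = c ∘ (Equiv.subRight (1 : ℤ)) := rfl
    rw [this]
    exact hfc.preimage (Function.Injective.injOn (Equiv.injective _)) |>.subset (by
      intro i hi; exact hi)
  have h3' : ∀ i, x i = c (i - 1) + a i := by
    intro i
    have := h3 (i - 1)
    rwa [sub_add_cancel] at this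
  have e1 : ∑ᶠ i : ℤ, (i.negOnePow : ℤ) * c (i - 1) = - ∑ᶠ i : ℤ, (i.negOnePow : ℤ) * c i := by
    rw [← finsum_comp_equiv (Equiv.addRight (1 : ℤ)), ← finsum_neg_distrib]
    apply finsum_congr
    intro i
    show ((i + 1).negOnePow : ℤ) * c (i + 1 - 1) = _
    rw [Int.negOnePow_succ, add_sub_cancel_right]
    simp
  have e2 : ∑ᶠ i : ℤ, (i.negOnePow : ℤ) * y i =
      ∑ᶠ i : ℤ, (i.negOnePow : ℤ) * a i + ∑ᶠ i : ℤ, (i.negOnePow : ℤ) * b i := by
    rw [← finsum_add_distrib (hmul a hfa) (hmul b hfb)]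
    exact finsum_congr (fun i => by rw [h1, mul_add])
  have e3 : ∑ᶠ i : ℤ, (i.negOnePow : ℤ) * z i =
      ∑ᶠ i : ℤ, (i.negOnePow : ℤ) * b i + ∑ᶠ i : ℤ, (i.negOnePow : ℤ) * c i := by
    rw [← finsum_add_distrib (hmul b hfb) (hmul c hfc)]
    exact finsum_congr (fun i => by rw [h2, mul_add])
  have e4 : ∑ᶠ i : ℤ, (i.negOnePow : ℤ) * x i =
      ∑ᶠ i : ℤ, (i.negOnePow : ℤ) * c (i - 1) + ∑ᶠ i : ℤ, (i.negOnePow : ℤ) * a i := by
    rw [← finsum_add_distrib (hmul _ hc') (hmul a hfa)]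
    exact finsum_congr (fun i => by rw [h3', mul_add])
  rw [e2, e3, e4, e1]
  ring

theorem vv_additive : IsAdditiveOnTriangles (vv (A := A) ρ) := by
  intro T hT
  have hT' : (DerivedCategory.Bounded.ι (C := A)).mapTriangle.obj T ∈
      distTriang (DerivedCategory A) := Functor.map_distinguished _ _ hT
  set T' := (DerivedCategory.Bounded.ι (C := A)).mapTriangle.obj T with hT'def
  apply sum_aux (fun i => ρ.rk ((H A i).obj T.obj₁)) (fun i => ρ.rk ((H A i).obj T.obj₂))
    (fun i => ρ.rk ((H A i).obj T.obj₃))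
    (fun i => ρ.rk (image ((DerivedCategory.homologyFunctor A i).map T'.mor₁)))
    (fun i => ρ.rk (image ((DerivedCategory.homologyFunctor A i).map T'.mor₂)))
    (fun i => ρ.rk (image (DerivedCategory.HomologySequence.δ T' i (i + 1) rfl)))
    (rk_support ρ _) (rk_support ρ _)
    (fun i => ρ.nonneg _) (fun i => ρ.nonneg _) (fun i => ρ.nonneg _)
  · intro i
    exact rk_exact ρ _ (DerivedCategory.HomologySequence.exact₂ T' hT' i)
  · intro i
    exact rk_exact ρ _ (DerivedCategory.HomologySequence.exact₃ T' hT' i (i + 1) rfl)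
  · intro i
    exact rk_exact ρ _ (DerivedCategory.HomologySequence.exact₁ T' hT' i (i + 1) rfl)

theorem vv_pure {n : ℤ} {X : DerivedCategory.Bounded A}
    (hX : ∀ i, i ≠ n → IsZero ((H A i).obj X)) :
    vv ρ X = (n.negOnePow : ℤ) * ρ.rk ((H A n).obj X) := by
  unfold vv
  apply finsum_eq_single
  intro i hi
  rw [ρ.zero _ (hX i hi), mul_zero]

theorem vv_zero {X : DerivedCategory.Bounded A} (hX : IsZero X) : vv ρ X = 0 := by
  rw [vv_pure ρ (n := 0) (fun i _ => (isZero_iff X).1 hX i),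
    ρ.zero _ ((isZero_iff X).1 hX 0), mul_zero]

/-- the central charge `i * rank` -/
noncomputable def charge : ℤ →+ ℂ := (AddMonoidHom.mulRight Complex.I).comp (Int.castAddHom ℂ)

theorem charge_apply (n : ℤ) : charge n = (n : ℂ) * Complex.I := rfl

theorem exp_phase (n : ℤ) : Complex.exp (Real.pi * ((1 / 2 - n : ℝ) : ℂ) * Complex.I) =
    ((n.negOnePow : ℤ) : ℂ) * Complex.I := by
  have h1 : (Real.pi : ℂ) * ((1 / 2 - n : ℝ) : ℂ) * Complex.I =
      (Real.pi / 2) * Complex.I + ((-n : ℤ) : ℂ) * (Real.pi * Complex.I) := by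
    push_cast; ring
  rw [h1, Complex.exp_add, Complex.exp_int_mul, Complex.exp_pi_mul_I, Complex.exp_pi_div_two_mul_I]
  rw [mul_comm]
  congr 1
  rw [zpow_neg]
  rcases Int.even_or_odd n with h | h
  · rw [h.neg_one_zpow, Int.negOnePow_even n h]; simp
  · rw [h.neg_one_zpow, Int.negOnePow_odd n h]; norm_num

theorem compat (φ : ℝ) (X : DerivedCategory.Bounded A) (hX : PP τ φ X) :
    ∃ m : ℝ, 0 ≤ m ∧ charge (vv ρ X) = m * Complex.exp (Real.pi * φ * Complex.I) := by
  by_cases h : ∃ n : ℤ, (φ = 1 - n ∨ φ = 1 / 2 - n)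
  · obtain ⟨n, hn⟩ := h
    have hp := vv_pure ρ (PP_pure hn hX)
    rcases hn with h1 | h1
    · refine ⟨0, le_rfl, ?_⟩
      rw [hp, ρ.torsion _ ((hX n).1 h1), mul_zero, map_zero]
      simp
    · refine ⟨(ρ.rk ((H A n).obj X) : ℝ), by exact_mod_cast ρ.nonneg _, ?_⟩
      rw [hp, charge_apply, h1, exp_phase]
      push_cast
      ring
  · refine ⟨0, le_rfl, ?_⟩
    push Not at h
    rw [vv_zero ρ (PP_other (fun n => by push Not; exact h n) hX), map_zero]
    simp

/-- the absolute value on `ℝ ⊗ ℤ = ℝ` -/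
noncomputable def absNorm (x : TensorProduct ℤ ℝ ℤ) : ℝ :=
  |TensorProduct.AlgebraTensorModule.rid ℤ ℝ ℝ x|

theorem absNorm_isNorm : IsNorm absNorm where
  nonneg x := abs_nonneg _
  eq_zero x h := by
    have h1 := abs_eq_zero.1 h
    exact (LinearEquiv.map_eq_zero_iff _).1 h1
  smul r x := by
    unfold absNorm
    rw [map_smul, smul_eq_mul, abs_mul]
  add x y := by
    unfold absNorm
    rw [map_add]
    exact abs_add_le _ _

/-- The lax stability condition on the bounded derived category defined by a torsion pair and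
a rank function: torsion-free objects have phase `1/2`, torsion objects have phase `1`, and
the central charge is `i * rank`. -/
noncomputable def lax : LaxStabilityCondition (DerivedCategory.Bounded A) ℤ absNorm (vv ρ) where
  toSlicing := slicing τ
  Z := charge
  compat := compat ρ
  support := by
    refine ⟨1, one_pos, fun φ s _ _ => ?_⟩
    rw [charge_apply, div_one]
    unfold absNorm
    rw [TensorProduct.AlgebraTensorModule.rid_tmul]
    simp

end

section Strict

variable {B : Type*} [Category B] [HasZeroMorphisms B]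

theorem strictExact_iff {X Y Z : B} (f : X ⟶ Y) (g : Y ⟶ Z) : StrictExact f g ↔
    f ≫ g = 0 ∧ (∀ (W : B) (t : W ⟶ Y), t ≫ g = 0 → ∃ l : W ⟶ X, l ≫ f = t) ∧
      (∀ (W : B) (l l' : W ⟶ X), l ≫ f = l' ≫ f → l = l') ∧
      (∀ (W : B) (t : Y ⟶ W), f ≫ t = 0 → ∃ l : Z ⟶ W, g ≫ l = t) ∧
      (∀ (W : B) (l l' : Z ⟶ W), g ≫ l = g ≫ l' → l = l') := by
  constructor
  · rintro ⟨w, ⟨h1⟩, ⟨h2⟩⟩
    refine ⟨w, ?_, ?_, ?_, ?_⟩
    · intro W t ht
      exact ⟨(KernelFork.IsLimit.lift' h1 t ht).1, (KernelFork.IsLimit.lift' h1 t ht).2⟩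
    · intro W l l' hl
      exact Fork.IsLimit.hom_ext h1 hl
    · intro W t ht
      exact ⟨(CokernelCofork.IsColimit.desc' h2 t ht).1,
        (CokernelCofork.IsColimit.desc' h2 t ht).2⟩
    · intro W l l' hl
      exact Cofork.IsColimit.hom_ext h2 hl
  · rintro ⟨w, h1, h2, h3, h4⟩
    refine ⟨w, ⟨?_⟩, ⟨?_⟩⟩
    · have : Mono f := ⟨fun l l' h => h2 _ l l' h⟩
      exact KernelFork.IsLimit.ofι' _ _ (fun {W} t ht => ⟨(h1 W t ht).choose, (h1 W t ht).choose_spec⟩)
    · have : Epi g := ⟨fun l l' h => h4 _ l l' h⟩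
      exact CokernelCofork.IsColimit.ofπ' _ _
        (fun {W} t ht => ⟨(h3 W t ht).choose, (h3 W t ht).choose_spec⟩)

theorem isSimple_of {S : B} (h0 : ¬ IsZero S) (h : ∀ (Z : B) (g : S ⟶ Z), g = 0 ∨ Mono g) :
    IsSimpleObj S := by
  refine ⟨h0, fun X Z f g hfg => ?_⟩
  obtain ⟨w, h1, h2, -, -⟩ := (strictExact_iff f g).1 hfg
  rcases h Z g with rfl | hg
  · right
    obtain ⟨l, hl⟩ := h1 S (𝟙 S) comp_zero
    refine ⟨l, ?_, hl⟩
    apply h2
    rw [Category.assoc, hl, Category.comp_id, Category.id_comp]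
  · left
    have hf : f = 0 := by
      rw [← cancel_mono g, w, zero_comp]
    rw [IsZero.iff_id_eq_zero]
    apply h2
    rw [hf, comp_zero, comp_zero]

theorem compSeries_single {S Z : B} (hZ : IsZero Z) (hS : IsSimpleObj S) : CompSeries S [S] := by
  refine CompSeries.cons (0 : Z ⟶ S) (𝟙 S) ?_ hS (CompSeries.nil hZ)
  rw [strictExact_iff]
  refine ⟨zero_comp, ?_, ?_, ?_, ?_⟩
  · intro W t ht
    rw [Category.comp_id] at ht
    exact ⟨0, by rw [ht, comp_zero]⟩
  · intro W l l' _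
    exact hZ.eq_of_tgt _ _
  · intro W t _
    exact ⟨t, Category.id_comp t⟩
  · intro W l l' h
    rwa [Category.id_comp, Category.id_comp] at h

variable {B' : Type*} [Category B'] [HasZeroMorphisms B']

theorem strictExact_map (G : B ⥤ B') [G.IsEquivalence] [G.PreservesZeroMorphisms] {X Y Z : B}
    {f : X ⟶ Y} {g : Y ⟶ Z} (h : StrictExact f g) : StrictExact (G.map f) (G.map g) := by
  rw [strictExact_iff] at h ⊢
  obtain ⟨w, h1, h2, h3, h4⟩ := h
  refine ⟨by rw [← G.map_comp, w, G.map_zero], ?_, ?_, ?_, ?_⟩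
  · intro W t ht
    obtain ⟨W', ⟨e⟩⟩ := Functor.EssSurj.mem_essImage (F := G) W
    obtain ⟨t', ht'⟩ := G.map_surjective (e.hom ≫ t)
    obtain ⟨l, hl⟩ := h1 W' t' (G.map_injective (by
      rw [G.map_comp, ht', Category.assoc, ht, comp_zero, G.map_zero]))
    refine ⟨e.inv ≫ G.map l, ?_⟩
    rw [Category.assoc, ← G.map_comp, hl, ht', Iso.inv_hom_id_assoc]
  · intro W l l' hl
    obtain ⟨W', ⟨e⟩⟩ := Functor.EssSurj.mem_essImage (F := G) W
    obtain ⟨m, hm⟩ := G.map_surjective (e.hom ≫ l)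
    obtain ⟨m', hm'⟩ := G.map_surjective (e.hom ≫ l')
    have : m = m' := h2 W' m m' (G.map_injective (by
      rw [G.map_comp, G.map_comp, hm, hm', Category.assoc, Category.assoc, hl]))
    rw [← cancel_epi e.hom, ← hm, ← hm', this]
  · intro W t ht
    obtain ⟨W', ⟨e⟩⟩ := Functor.EssSurj.mem_essImage (F := G) W
    obtain ⟨t', ht'⟩ := G.map_surjective (t ≫ e.inv)
    obtain ⟨l, hl⟩ := h3 W' t' (G.map_injective (by
      rw [G.map_comp, ht', ← Category.assoc, ht, zero_comp, G.map_zero]))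
    refine ⟨G.map l ≫ e.hom, ?_⟩
    rw [← Category.assoc, ← G.map_comp, hl, ht', Category.assoc, e.inv_hom_id, Category.comp_id]
  · intro W l l' hl
    obtain ⟨W', ⟨e⟩⟩ := Functor.EssSurj.mem_essImage (F := G) W
    obtain ⟨m, hm⟩ := G.map_surjective (l ≫ e.inv)
    obtain ⟨m', hm'⟩ := G.map_surjective (l' ≫ e.inv)
    have : m = m' := h4 W' m m' (G.map_injective (by
      rw [G.map_comp, G.map_comp, hm, hm', ← Category.assoc, ← Category.assoc, hl]))
    rw [← cancel_mono e.inv, ← hm, ← hm', this]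

theorem zero_or_mono_map (G : B ⥤ B') [G.IsEquivalence] [G.PreservesZeroMorphisms] {S : B}
    (h : ∀ (Z : B) (g : S ⟶ Z), g = 0 ∨ Mono g) (Z : B') (g : G.obj S ⟶ Z) :
    g = 0 ∨ Mono g := by
  obtain ⟨W, ⟨e⟩⟩ := Functor.EssSurj.mem_essImage (F := G) Z
  obtain ⟨m, hm⟩ := G.map_surjective (g ≫ e.inv)
  rcases h W m with h' | h'
  · left
    rw [h', G.map_zero] at hm
    rw [← cancel_mono e.inv, ← hm, zero_comp]
  · right
    have h2 : Mono (G.map m) := inferInstance
    rw [hm] at h2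
    exact mono_of_mono g e.inv

end Strict

section Slice

variable {A : Type u} [Category.{v} A] [Abelian A] [HasDerivedCategory.{w} A]
  (τ : TorsionPair A)

theorem half_mem (M : τ.F.FullSubcategory) : PP τ (1 / 2) ((St 0).obj M.obj) := by
  have := St_PP_F (τ := τ) 0 M.obj M.property
  simpa using this

/-- The torsion-free class is equivalent to the slice of phase `1/2`. -/
noncomputable def Psi : τ.F.FullSubcategory ⥤ (PP τ (1 / 2)).FullSubcategory :=
  ObjectProperty.lift _ (τ.F.ι ⋙ St 0) (half_mem τ)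

instance : (Psi τ).Full := by unfold Psi; infer_instance
instance : (Psi τ).Faithful := by unfold Psi; infer_instance
instance : (Psi τ).EssSurj where
  mem_essImage X := by
    have hX : PP τ (1 / 2) X.obj := X.property
    have h0 : (1 / 2 : ℝ) = 1 / 2 - ((0 : ℤ) : ℝ) := by simp
    obtain ⟨M, ⟨e⟩⟩ := exists_iso_St X.obj 0 (PP_pure (Or.inr h0) hX)
    have hM : τ.F M := τ.F_iso ((H A 0).mapIso e ≪≫ HSt 0 M) ((hX 0).2.1 h0)
    exact ⟨⟨M, hM⟩, ⟨ObjectProperty.isoMk _ e.symm⟩⟩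
instance : (Psi τ).IsEquivalence where

omit [HasDerivedCategory A] in
theorem strictExact_of_shortExact {X Y Z : τ.F.FullSubcategory} (f : X ⟶ Y) (g : Y ⟶ Z)
    (w : f.hom ≫ g.hom = 0) (h : (ShortComplex.mk f.hom g.hom w).ShortExact) :
    StrictExact f g := by
  have hm : Mono f.hom := h.mono_f
  have he : Epi g.hom := h.epi_g
  rw [strictExact_iff]
  refine ⟨ObjectProperty.hom_ext _ w, ?_, ?_, ?_, ?_⟩
  · intro W t ht
    have ht' : t.hom ≫ g.hom = 0 := congrArg (fun s => s.hom) ht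
    refine ⟨ObjectProperty.homMk (h.exact.lift t.hom ht'), ObjectProperty.hom_ext _ ?_⟩
    exact h.exact.lift_f t.hom ht'
  · intro W l l' hl
    apply ObjectProperty.hom_ext
    rw [← cancel_mono f.hom]
    exact congrArg (fun s => s.hom) hl
  · intro W t ht
    have ht' : f.hom ≫ t.hom = 0 := congrArg (fun s => s.hom) ht
    refine ⟨ObjectProperty.homMk (h.exact.desc t.hom ht'), ObjectProperty.hom_ext _ ?_⟩
    exact h.exact.g_desc t.hom ht'
  · intro W l l' hl
    apply ObjectProperty.hom_ext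
    rw [← cancel_epi g.hom]
    exact congrArg (fun s => s.hom) hl

end Slice

section Modules

variable (R : Type) [CommRing R] [IsDomain R] [IsNoetherianRing R]

/-- finitely generated modules -/
abbrev Md := FGModuleCat.{0} R

variable {R}

/-- underlying linear map -/
abbrev lin {X Y : Md R} (f : X ⟶ Y) : X →ₗ[R] Y := f.hom.hom

theorem lin_comp {X Y Z : Md R} (f : X ⟶ Y) (g : Y ⟶ Z) (x : X) :
    lin (f ≫ g) x = lin g (lin f x) := rfl

theorem lin_add {X Y : Md R} (f g : X ⟶ Y) (x : X) : lin (f + g) x = lin f x + lin g x := rfl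

theorem lin_zero {X Y : Md R} (x : X) : lin (0 : X ⟶ Y) x = 0 := rfl

theorem lin_id {X : Md R} (x : X) : lin (𝟙 X) x = x := rfl

theorem md_ext {X Y : Md R} {f g : X ⟶ Y} (h : ∀ x, lin f x = lin g x) : f = g :=
  FGModuleCat.hom_ext (LinearMap.ext h)

theorem eq_zero_of_isZero {X : Md R} (h : IsZero X) (x : X) : x = 0 := by
  have h1 : 𝟙 X = 0 := (IsZero.iff_id_eq_zero X).1 h
  have h2 : lin (𝟙 X) x = lin (0 : X ⟶ X) x := by rw [h1]
  exact h2

theorem lin_inj {X Y : Md R} (f : X ⟶ Y) [Mono f] : Function.Injective (lin f) := by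
  have h2 : Mono ((forget₂ (FGModuleCat R) (ModuleCat R)).map f) := inferInstance
  exact (ModuleCat.mono_iff_injective _).1 h2

theorem lin_surj {X Y : Md R} (f : X ⟶ Y) [Epi f] : Function.Surjective (lin f) := by
  have h2 : Epi ((forget₂ (FGModuleCat R) (ModuleCat R)).map f) := inferInstance
  exact (ModuleCat.epi_iff_surjective _).1 h2

theorem mono_of_inj {X Y : Md R} (f : X ⟶ Y) (h : Function.Injective (lin f)) : Mono f := by
  constructor
  intro Z g g' hg
  apply md_ext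
  intro x
  apply h
  rw [← lin_comp, ← lin_comp, hg]

theorem epi_of_surj {X Y : Md R} (f : X ⟶ Y) (h : Function.Surjective (lin f)) : Epi f := by
  constructor
  intro Z g g' hg
  apply md_ext
  intro x
  obtain ⟨y, rfl⟩ := h x
  rw [← lin_comp, ← lin_comp, hg]

theorem shortExact_of {X Y Z : Md R} (f : X ⟶ Y) (g : Y ⟶ Z) (w : f ≫ g = 0)
    (hf : Function.Injective (lin f)) (hg : Function.Surjective (lin g))
    (h : ∀ y, lin g y = 0 → ∃ x, lin f x = y) : (ShortComplex.mk f g w).ShortExact where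
  mono_f := mono_of_inj f hf
  epi_g := epi_of_surj g hg
  exact := by
    apply ShortComplex.exact_of_f_is_kernel
    have hm : Mono (ShortComplex.mk f g w).f := mono_of_inj f hf
    refine KernelFork.IsLimit.ofι' _ _ (fun {W} t ht => ?_)
    have ht' : ∀ x, lin g (lin t x) = 0 := fun x => by
      have : t ≫ g = 0 := ht
      rw [← lin_comp, this, lin_zero]
    let e := LinearEquiv.ofInjective (lin f) hf
    let l : W →ₗ[R] X := e.symm.toLinearMap ∘ₗ
      (LinearMap.codRestrict (LinearMap.range (lin f)) (lin t)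
        (fun x => by obtain ⟨y, hy⟩ := h _ (ht' x); exact ⟨y, hy⟩))
    refine ⟨ObjectProperty.homMk (ModuleCat.ofHom l), ?_⟩
    apply md_ext
    intro x
    have : lin f (e.symm ⟨lin t x, _⟩) = lin t x :=
      congrArg Subtype.val (e.apply_symm_apply ⟨lin t x, by
        obtain ⟨y, hy⟩ := h _ (ht' x); exact ⟨y, hy⟩⟩)
    exact this

/-- torsion submodule -/
def tors (M : Type) [AddCommGroup M] [Module R M] : Submodule R M where
  carrier := {x | ∃ a : R, a ≠ 0 ∧ a • x = 0}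
  zero_mem' := ⟨1, one_ne_zero, smul_zero _⟩
  add_mem' := by
    rintro x y ⟨a, ha, hax⟩ ⟨b, hb, hby⟩
    refine ⟨a * b, mul_ne_zero ha hb, ?_⟩
    rw [smul_add, mul_smul, mul_smul, hby, smul_zero, add_zero, smul_comm, hax, smul_zero]
  smul_mem' := by
    rintro c x ⟨a, ha, hax⟩
    exact ⟨a, ha, by rw [smul_comm, hax, smul_zero]⟩

variable (R) in
/-- The torsion pair (torsion modules, torsion-free modules). -/
def tp : TorsionPair (Md R) where
  T M := ∀ x : M, ∃ a : R, a ≠ 0 ∧ a • x = 0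
  F M := ∀ (a : R) (x : M), a • x = 0 → a = 0 ∨ x = 0
  T_zero M h x := ⟨1, one_ne_zero, eq_zero_of_isZero h _⟩
  F_zero M h a x _ := Or.inr (eq_zero_of_isZero h x)
  T_iso {X Y} e h y := by
    obtain ⟨a, ha, hx⟩ := h (lin e.inv y)
    refine ⟨a, ha, ?_⟩
    have h1 := congrArg (lin e.hom) hx
    rwa [map_smul, ← lin_comp, e.inv_hom_id, lin_id, map_zero] at h1
  F_iso {X Y} e h a y hy := by
    have h1 := congrArg (lin e.inv) hy
    rw [map_smul, map_zero] at h1
    rcases h a _ h1 with h2 | h2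
    · exact Or.inl h2
    · right
      have h3 := congrArg (lin e.hom) h2
      rwa [← lin_comp, e.inv_hom_id, lin_id, map_zero] at h3
  T_sum {X Y Z} i₁ i₂ p₁ p₂ h hX hY z := by
    obtain ⟨a, ha, hax⟩ := hX (lin p₁ z)
    obtain ⟨b, hb, hby⟩ := hY (lin p₂ z)
    refine ⟨a * b, mul_ne_zero ha hb, ?_⟩
    have hz : z = lin i₁ (lin p₁ z) + lin i₂ (lin p₂ z) := by
      rw [← lin_comp, ← lin_comp, ← lin_add, h, lin_id]
    rw [hz, smul_add, mul_smul, mul_smul, ← map_smul (lin i₂) b, hby, map_zero, smul_zero,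
      add_zero, smul_comm, ← map_smul, hax, map_zero, smul_zero]
  F_sum {X Y Z} i₁ i₂ p₁ p₂ h hX hY a z haz := by
    by_cases ha : a = 0
    · exact Or.inl ha
    right
    have h1 := congrArg (lin p₁) haz
    have h2 := congrArg (lin p₂) haz
    rw [map_smul, map_zero] at h1 h2
    have hz : z = lin i₁ (lin p₁ z) + lin i₂ (lin p₂ z) := by
      rw [← lin_comp, ← lin_comp, ← lin_add, h, lin_id]
    rw [hz, (hX _ _ h1).resolve_left ha, (hY _ _ h2).resolve_left ha, map_zero, map_zero, add_zero]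
  hom {X Y} f hX hY := by
    apply md_ext
    intro x
    obtain ⟨a, ha, hax⟩ := hX x
    have h1 := congrArg (lin f) hax
    rw [map_smul, map_zero] at h1
    exact (hY _ _ h1).resolve_left ha
  seq M := by
    have hfin : Module.Finite R (tors (R := R) M) := inferInstance
    let X : Md R := FGModuleCat.of R (tors (R := R) M)
    let Z : Md R := FGModuleCat.of R (M ⧸ tors (R := R) M)
    let f : X ⟶ M := ObjectProperty.homMk (ModuleCat.ofHom (tors (R := R) M).subtype)
    let g : M ⟶ Z := ObjectProperty.homMk (ModuleCat.ofHom (tors (R := R) M).mkQ)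
    have hg : ∀ y : M, lin g y = 0 ↔ y ∈ tors (R := R) M := fun y =>
      Submodule.Quotient.mk_eq_zero _
    have w : f ≫ g = 0 := md_ext (fun x => (hg _).2 x.2)
    refine ⟨ShortComplex.mk f g w, shortExact_of f g w ?_ ?_ ?_, ?_, ?_, ⟨Iso.refl _⟩⟩
    · exact Subtype.val_injective
    · exact Submodule.mkQ_surjective _
    · intro y hy
      exact ⟨⟨y, (hg y).1 hy⟩, rfl⟩
    · rintro ⟨x, a, ha, hax⟩
      exact ⟨a, ha, Subtype.ext hax⟩
    · intro a x hax
      by_cases ha : a = 0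
      · exact Or.inl ha
      right
      obtain ⟨y, rfl⟩ := Submodule.mkQ_surjective _ x
      have h1 : (tors (R := R) M).mkQ (a • y) = 0 := by rw [map_smul]; exact hax
      obtain ⟨b, hb, hby⟩ := (Submodule.Quotient.mk_eq_zero _).1 h1
      exact (Submodule.Quotient.mk_eq_zero _).2
        ⟨b * a, mul_ne_zero hb ha, by rw [mul_smul]; exact hby⟩

theorem finrank_exact (S : ShortComplex (Md R)) (hS : S.ShortExact) :
    Module.finrank R S.X₂ = Module.finrank R S.X₁ + Module.finrank R S.X₃ := by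
  have hm : Mono S.f := hS.mono_f
  have he : Epi S.g := hS.epi_g
  have hf : Function.Injective (lin S.f) := lin_inj S.f
  have hg : Function.Surjective (lin S.g) := lin_surj S.g
  have hex : LinearMap.range (lin S.f) = LinearMap.ker (lin S.g) :=
    (hS.exact.map (forget₂ (FGModuleCat R) (ModuleCat R))).moduleCat_range_eq_ker
  have h1 := Submodule.finrank_quotient_add_finrank (LinearMap.ker (lin S.g))
  rw [((lin S.g).quotKerEquivOfSurjective hg).finrank_eq, ← hex,
    LinearMap.finrank_range_of_inj hf] at h1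
  rw [← h1, add_comm]

variable (R) in
/-- The rank function. -/
noncomputable def rkFn : RankFn (tp R) where
  rk M := (Module.finrank R M : ℤ)
  nonneg M := by positivity
  zero M h := by
    have : Subsingleton M := ⟨fun x y => by
      rw [eq_zero_of_isZero h x, eq_zero_of_isZero h y]⟩
    simp [Module.finrank_zero_of_subsingleton]
  iso {M N} e := by
    have := (FGModuleCat.isoToLinearEquiv e).finrank_eq
    exact_mod_cast this
  exact S hS := by
    have := finrank_exact S hS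
    exact_mod_cast this
  torsion M h := by
    have : Module.finrank R M = 0 := by
      rw [Module.finrank_eq_zero_iff_isTorsion]
      intro x
      obtain ⟨a, ha, hax⟩ := h x
      exact ⟨⟨a, mem_nonZeroDivisors_of_ne_zero ha⟩, hax⟩
    exact_mod_cast this

/-- torsion-free modules as objects of the torsion-free class -/
def obj (M : Type) [AddCommGroup M] [Module R M] [Module.Finite R M]
    (h : ∀ (a : R) (x : M), a • x = 0 → a = 0 ∨ x = 0) : (tp R).F.FullSubcategory :=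
  ⟨FGModuleCat.of R M, h⟩

theorem ideal_tf (I : Ideal R) (a : R) (x : I) (h : a • x = 0) : a = 0 ∨ x = 0 := by
  have h1 : a * (x : R) = 0 := congrArg Subtype.val h
  rcases mul_eq_zero.1 h1 with h2 | h2
  · exact Or.inl h2
  · exact Or.inr (Subtype.ext h2)

/-- an ideal as an object of the torsion-free class -/
def idl (I : Ideal R) : (tp R).F.FullSubcategory := obj I (ideal_tf I)

theorem idl_zero_or_mono (I : Ideal R) (Z : (tp R).F.FullSubcategory) (g : idl I ⟶ Z) :
    g = 0 ∨ Mono g := by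
  by_cases hg : ∃ x : I, x ≠ 0 ∧ lin g.hom x = 0
  · left
    obtain ⟨x, hx, hgx⟩ := hg
    apply ObjectProperty.hom_ext
    apply md_ext
    intro (y : I)
    let g' : I →ₗ[R] Z.obj := lin g.hom
    have h1 : (y : R) • g' x = (x : R) • g' y := by
      rw [← map_smul, ← map_smul]
      congr 1
      exact Subtype.ext (mul_comm _ _)
    have hgx : g' x = 0 := hgx
    rw [hgx, smul_zero] at h1
    have hx' : (x : R) ≠ 0 := fun h => hx (Subtype.ext h)
    exact (Z.property _ _ h1.symm).resolve_left hx'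
  · right
    push Not at hg
    have hinj : Function.Injective (lin g.hom) := by
      rw [injective_iff_map_eq_zero]
      intro x hx
      by_contra hne
      exact hg x hne hx
    have := mono_of_inj g.hom hinj
    constructor
    intro W t t' ht
    apply ObjectProperty.hom_ext
    rw [← cancel_mono g.hom]
    exact congrArg (fun s => s.hom) ht

theorem idl_not_zero (I : Ideal R) (hI : I ≠ ⊥) : ¬ IsZero (idl I) := by
  intro h
  apply hI
  rw [Submodule.eq_bot_iff]
  intro x hx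
  have h1 : 𝟙 (idl I) = 0 := (IsZero.iff_id_eq_zero _).1 h
  have h2 := congrArg (fun s : idl I ⟶ idl I => lin s.hom (⟨x, hx⟩ : I)) h1
  exact congrArg Subtype.val h2

variable [HasDerivedCategory (Md R)]

theorem simple_idl (I : Ideal R) (hI : I ≠ ⊥) : IsSimpleObj ((Psi (tp R)).obj (idl I)) := by
  apply isSimple_of
  · intro h
    apply idl_not_zero I hI
    rw [IsZero.iff_id_eq_zero] at h ⊢
    apply (Psi (tp R)).map_injective
    rw [CategoryTheory.Functor.map_id, h, Functor.map_zero]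
  · exact zero_or_mono_map (Psi (tp R)) (idl_zero_or_mono I)

theorem prod_tf (I J : Ideal R) (a : R) (x : I × J) (h : a • x = 0) : a = 0 ∨ x = 0 := by
  by_cases ha : a = 0
  · exact Or.inl ha
  · right
    exact Prod.ext ((ideal_tf I a x.1 (congrArg Prod.fst h)).resolve_left ha)
      ((ideal_tf J a x.2 (congrArg Prod.snd h)).resolve_left ha)

theorem exists_zero_slice : ∃ Z : (PP (tp R) (1 / 2)).FullSubcategory, IsZero Z := by
  obtain ⟨Z, hZ⟩ := HasZeroObject.zero (C := DerivedCategory.Bounded (Md R))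
  refine ⟨⟨Z, PP_zero _ _ hZ⟩, ?_⟩
  rw [IsZero.iff_id_eq_zero]
  apply ObjectProperty.hom_ext
  exact hZ.eq_of_src _ _

theorem comp_one (I J : Ideal R) (hI : I ≠ ⊥) (hJ : J ≠ ⊥) :
    CompSeries ((Psi (tp R)).obj (obj (I × J) (prod_tf I J)))
      [(Psi (tp R)).obj (idl J), (Psi (tp R)).obj (idl I)] := by
  obtain ⟨Z, hZ⟩ := exists_zero_slice (R := R)
  let f₀ : I →ₗ[R] (I × J) := LinearMap.inl R I J
  let g₀ : (I × J) →ₗ[R] J := LinearMap.snd R I J
  let f : idl I ⟶ obj (I × J) (prod_tf I J) := ObjectProperty.homMk (FGModuleCat.ofHom f₀)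
  let g : obj (I × J) (prod_tf I J) ⟶ idl J := ObjectProperty.homMk (FGModuleCat.ofHom g₀)
  refine CompSeries.cons ((Psi (tp R)).map f) ((Psi (tp R)).map g) ?_ (simple_idl J hJ)
    (compSeries_single hZ (simple_idl I hI))
  apply strictExact_map
  apply strictExact_of_shortExact (tp R) f g (md_ext (fun x => rfl))
  apply shortExact_of
  · exact LinearMap.inl_injective (R := R) (M := I) (M₂ := J)
  · exact LinearMap.snd_surjective (R := R) (M := I) (M₂ := J)
  · intro (y : I × J) hy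
    refine ⟨y.1, ?_⟩
    have hy' : y.2 = 0 := hy
    exact Prod.ext rfl hy'.symm

theorem comp_two (I J : Ideal R) (hI : I ≠ ⊥) (hJ : J ≠ ⊥) (hIJ : I ⊔ J = ⊤) :
    CompSeries ((Psi (tp R)).obj (obj (I × J) (prod_tf I J)))
      [(Psi (tp R)).obj (idl ⊤), (Psi (tp R)).obj (idl (I ⊓ J))] := by
  obtain ⟨Z, hZ⟩ := exists_zero_slice (R := R)
  have hmul : I ⊓ J ≠ ⊥ := by
    obtain ⟨a, ha, ha0⟩ := Submodule.exists_mem_ne_zero_of_ne_bot hI
    obtain ⟨b, hb, hb0⟩ := Submodule.exists_mem_ne_zero_of_ne_bot hJ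
    intro h
    have h1 : a * b ∈ I ⊓ J := ⟨I.mul_mem_right b ha, J.mul_mem_left a hb⟩
    rw [h, Ideal.mem_bot] at h1
    exact mul_ne_zero ha0 hb0 h1
  let f₀ : (I ⊓ J : Ideal R) →ₗ[R] (I × J) :=
    LinearMap.prod (Submodule.inclusion inf_le_left) (-(Submodule.inclusion inf_le_right))
  let g₀ : (I × J) →ₗ[R] (⊤ : Ideal R) :=
    LinearMap.codRestrict ⊤ (LinearMap.coprod I.subtype J.subtype) (fun _ => trivial)
  have hf₀ : ∀ x, f₀ x = (⟨x.1, x.2.1⟩, -⟨x.1, x.2.2⟩) := fun x => rfl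
  have hg₀ : ∀ y, ((g₀ y : (⊤ : Ideal R)) : R) = y.1.1 + y.2.1 := fun y => rfl
  let f : idl (I ⊓ J) ⟶ obj (I × J) (prod_tf I J) := ObjectProperty.homMk (FGModuleCat.ofHom f₀)
  let g : obj (I × J) (prod_tf I J) ⟶ idl ⊤ := ObjectProperty.homMk (FGModuleCat.ofHom g₀)
  refine CompSeries.cons ((Psi (tp R)).map f) ((Psi (tp R)).map g) ?_
    (simple_idl ⊤ top_ne_bot) (compSeries_single hZ (simple_idl _ hmul))
  apply strictExact_map
  have w : f.hom ≫ g.hom = 0 := by
    apply md_ext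
    intro (x : (I ⊓ J : Ideal R))
    show g₀ (f₀ x) = 0
    apply Subtype.ext
    rw [hg₀, hf₀]
    simp
  apply strictExact_of_shortExact (tp R) f g w
  apply shortExact_of
  · show Function.Injective f₀
    intro x y hxy
    rw [hf₀, hf₀] at hxy
    have := congrArg (fun p => (Prod.fst p : I).1) hxy
    exact Subtype.ext this
  · show Function.Surjective g₀
    rintro ⟨y, -⟩
    have hy : y ∈ I ⊔ J := by rw [hIJ]; trivial
    obtain ⟨a, ha, b, hb, hab⟩ := Submodule.mem_sup.1 hy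
    exact ⟨(⟨a, ha⟩, ⟨b, hb⟩), Subtype.ext (by rw [hg₀]; exact hab)⟩
  · intro (y : I × J) (hy : g₀ y = 0)
    have h1 : y.1.1 + y.2.1 = 0 := by rw [← hg₀, hy]; rfl
    have h2 : y.1.1 = - y.2.1 := eq_neg_of_add_eq_zero_left h1
    refine ⟨(⟨y.1.1, y.1.2, ?_⟩ : (I ⊓ J : Ideal R)), ?_⟩
    · rw [h2]
      exact J.neg_mem y.2.2
    · show f₀ _ = y
      rw [hf₀]
      refine Prod.ext (Subtype.ext rfl) (Subtype.ext ?_)
      show - y.1.1 = y.2.1
      rw [h2, neg_neg]

/-- isomorphic objects of the slice come from isomorphic ideals -/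
theorem iso_idl {I J : Ideal R} (h : Nonempty ((Psi (tp R)).obj (idl I) ≅ (Psi (tp R)).obj (idl J))) :
    Nonempty (I ≃ₗ[R] J) := by
  obtain ⟨e⟩ := h
  have e1 : idl I ≅ idl J := (Psi (tp R)).preimageIso e
  exact ⟨FGModuleCat.isoToLinearEquiv ((tp R).F.ι.mapIso e1)⟩

theorem principal_of_equiv {I : Ideal R} (e : I ≃ₗ[R] (⊤ : Ideal R)) : ∃ p : R, I = Ideal.span {p} := by
  refine ⟨(e.symm ⟨1, trivial⟩ : I), ?_⟩
  apply le_antisymm
  · intro x hx
    rw [Ideal.mem_span_singleton']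
    refine ⟨(e ⟨x, hx⟩ : (⊤ : Ideal R)), ?_⟩
    have h1 : (⟨x, hx⟩ : I) = e.symm ((e ⟨x, hx⟩ : (⊤ : Ideal R)).1 • (⟨1, trivial⟩ : (⊤ : Ideal R))) := by
      rw [LinearEquiv.eq_symm_apply]
      apply Subtype.ext
      show (e ⟨x, hx⟩ : (⊤ : Ideal R)).1 = (e ⟨x, hx⟩ : (⊤ : Ideal R)).1 * 1
      rw [mul_one]
    have h2 := congrArg Subtype.val h1
    rw [map_smul] at h2
    exact h2.symm
  · rw [Ideal.span_singleton_le_iff_mem]
    exact (e.symm ⟨1, trivial⟩ : I).2

theorem not_jordanHolder (I J : Ideal R) (hIJ : I ⊔ J = ⊤)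
    (hI : ¬ ∃ p : R, I = Ideal.span {p}) (hJ : ¬ ∃ p : R, J = Ideal.span {p}) :
    ¬ JordanHolder (PP (tp R) (1 / 2)).FullSubcategory := by
  intro h
  have hI0 : I ≠ ⊥ := fun h => hI ⟨0, by rw [h]; simp⟩
  have hJ0 : J ≠ ⊥ := fun h => hJ ⟨0, by rw [h]; simp⟩
  obtain ⟨l, hl, hl'⟩ := h _ _ _ (comp_one I J hI0 hJ0) (comp_two I J hI0 hJ0 hIJ)
  cases hl' with
  | cons hab htail =>
    rename_i a l₁
    have hmem : a ∈ [(Psi (tp R)).obj (idl J), (Psi (tp R)).obj (idl I)] :=
      hl.mem_iff.2 (List.mem_cons_self ..)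
    rcases List.mem_cons.1 hmem with rfl | hmem
    · obtain ⟨e⟩ := iso_idl hab
      exact hJ (principal_of_equiv e)
    · rw [List.mem_singleton] at hmem
      subst hmem
      obtain ⟨e⟩ := iso_idl hab
      exact hI (principal_of_equiv e)

end Modules

section Final

open Polynomial

section Massive

variable {R : Type} [CommRing R] [IsDomain R] [IsNoetherianRing R] [HasDerivedCategory (Md R)]

theorem massive (X : DerivedCategory.Bounded (Md R)) (hX : PP (tp R) (1 / 2) X)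
    (h0 : ¬ IsZero X) : charge (vv (rkFn R) X) ≠ 0 := by
  intro h
  apply h0
  have hhalf : (1 / 2 : ℝ) = 1 / 2 - ((0 : ℤ) : ℝ) := by simp
  have hp := PP_pure (Or.inr hhalf) hX
  rw [vv_pure (rkFn R) hp, charge_apply, mul_eq_zero] at h
  have h1 := h.resolve_right Complex.I_ne_zero
  have h2 : (rkFn R).rk ((H (Md R) 0).obj X) = 0 := by
    have h3 : ((0 : ℤ).negOnePow : ℤ) * (rkFn R).rk ((H (Md R) 0).obj X) = 0 := by
      exact_mod_cast h1
    simpa using h3
  have h4 : Module.finrank R ((H (Md R) 0).obj X) = 0 := by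
    have h5 : ((Module.finrank R ((H (Md R) 0).obj X) : ℕ) : ℤ) = 0 := h2
    exact_mod_cast h5
  rw [Module.finrank_eq_zero_iff] at h4
  have hF := (hX 0).2.1 hhalf
  rw [isZero_iff]
  intro i
  by_cases hi : i = 0
  · subst hi
    rw [IsZero.iff_id_eq_zero]
    apply md_ext
    intro x
    obtain ⟨a, ha, hax⟩ := h4 x
    exact (hF a x hax).resolve_left ha
  · exact hp i hi

end Massive

theorem not_principal (p : ℤ) (hp : 2 ≤ p) :
    ¬ ∃ q : ℤ[X], Ideal.span {(C p : ℤ[X]), X} = Ideal.span {q} := by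
  rintro ⟨q, hq⟩
  have h1 : (C p : ℤ[X]) ∈ Ideal.span {q} := by
    rw [← hq]; exact Ideal.subset_span (by simp)
  have h2 : (X : ℤ[X]) ∈ Ideal.span {q} := by
    rw [← hq]; exact Ideal.subset_span (by simp)
  rw [Ideal.mem_span_singleton] at h1 h2
  have hCp : (C p : ℤ[X]) ≠ 0 := by
    rw [Ne, C_eq_zero]; omega
  have hdeg : q.natDegree = 0 := by
    have := natDegree_le_of_dvd h1 hCp
    rw [natDegree_C] at this
    omega
  obtain ⟨c, rfl⟩ := natDegree_eq_zero.1 hdeg
  obtain ⟨r, hr⟩ := h2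
  have hc : c * r.coeff 1 = 1 := by
    have := congrArg (fun s : ℤ[X] => s.coeff 1) hr
    simpa using this.symm
  have hu : IsUnit (C c : ℤ[X]) := by
    rw [isUnit_C]
    exact IsUnit.of_mul_eq_one _ hc
  rw [Ideal.span_singleton_eq_top.2 hu] at hq
  have h3 : (1 : ℤ[X]) ∈ Ideal.span {(C p : ℤ[X]), X} := by rw [hq]; trivial
  obtain ⟨a, b, hab⟩ := Ideal.mem_span_pair.1 h3
  have h4 := congrArg (eval 0) hab
  simp at h4
  have h5 : p ∣ 1 := ⟨eval 0 a, by rw [← h4]; ring⟩
  have h6 := Int.le_of_dvd one_pos h5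
  omega

theorem comax : Ideal.span {(C 2 : ℤ[X]), X} ⊔ Ideal.span {(C 3 : ℤ[X]), X} = ⊤ := by
  rw [Ideal.eq_top_iff_one]
  have h1 : (C 3 : ℤ[X]) ∈ Ideal.span {(C 2 : ℤ[X]), X} ⊔ Ideal.span {(C 3 : ℤ[X]), X} :=
    Ideal.mem_sup_right (Ideal.subset_span (by simp))
  have h2 : (C 2 : ℤ[X]) ∈ Ideal.span {(C 2 : ℤ[X]), X} ⊔ Ideal.span {(C 3 : ℤ[X]), X} :=
    Ideal.mem_sup_left (Ideal.subset_span (by simp))
  have h3 := Ideal.sub_mem _ h1 h2
  rw [← C_sub] at h3
  norm_num at h3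
  exact h3

/-- There are a triangulated category `C`, a free abelian group `Λ` of finite rank with a norm
on `ℝ ⊗ Λ`, a homomorphism `v : K(C) → Λ`, a lax stability condition and a phase `φ` such that
the slice `P φ` does not have the Jordan-Hölder property. Moreover all nonzero objects of this
slice are massive. -/
theorem result :
    ∃ (C : Type 1) (_ : Category.{1} C) (_ : Preadditive C) (_ : HasZeroObject C)
      (_ : HasShift C ℤ) (_ : ∀ n : ℤ, (shiftFunctor C n).Additive) (_ : Pretriangulated C)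
      (_ : IsTriangulated C) (Λ : Type) (_ : AddCommGroup Λ) (_ : Module.Free ℤ Λ)
      (_ : Module.Finite ℤ Λ) (N : TensorProduct ℤ ℝ Λ → ℝ) (_ : IsNorm N) (v : C → Λ)
      (_ : IsAdditiveOnTriangles v) (σ : LaxStabilityCondition C Λ N v) (φ : ℝ),
      (∀ X : C, σ.P φ X → ¬ IsZero X → σ.Z (v X) ≠ 0) ∧
        ¬ JordanHolder (σ.P φ).FullSubcategory := by
  let _ : HasDerivedCategory.{1} (Md ℤ[X]) := HasDerivedCategory.standard (Md ℤ[X])
  exact ⟨DerivedCategory.Bounded (Md ℤ[X]), inferInstance, inferInstance, inferInstance,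
    inferInstance, inferInstance, inferInstance, inferInstance, ℤ, inferInstance, inferInstance,
    inferInstance, absNorm, absNorm_isNorm, vv (rkFn ℤ[X]), vv_additive _, lax (rkFn ℤ[X]), 1 / 2,
    massive, not_jordanHolder _ _ comax (not_principal 2 (by norm_num))
      (not_principal 3 (by norm_num))⟩

end Final

end Pool.Agent.Results.MP_f85f12_al.TorsionFreeSliceNotJordanHolder
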